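import Pool.Agent.Y677.RSZ.Top
import Pool.Agent.H305R2.MertensE

/-!
# Szemerédi's theorem for dense sets of rough numbers in all short intervals
-/

set_option autoImplicit false

open Finset Filter

namespace Pool.Agent.Y751.SI

open Pool.Agent.Y677.RSZ
open Pool.Agent.TH423.SH (PS)

theorem rt_id (p : ℕ) (hp : p.Prime) : rt (fun n => n) p = 1 := by
  unfold rt
  have h : (range p).filter (fun r : ℕ => (p : ℤ) ∣ (r : ℤ)) = {0} := by
    ext r
    rw [mem_filter, mem_range, mem_singleton]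
    constructor
    · rintro ⟨h1, h2⟩
      exact Nat.eq_zero_of_dvd_of_lt (by exact_mod_cast h2) h1
    · rintro rfl
      exact ⟨hp.pos, by simp⟩
  rw [h, card_singleton]

/-- the integers themselves are a system -/
theorem sys_id (g : ℕ) (hg : 1 ≤ g) : Sys g (fun n => n) where
  per := fun p _ n => by simp
  root := fun p hp => by
    rw [rt_id p hp]
    exact ⟨hg, hp.one_lt⟩
  coll := by
    refine ⟨fun h => h, fun h hh => ⟨hg.trans hh, Nat.le_self_pow (by omega) h, ?_⟩⟩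
    intro p _ n h1 h2
    have h3 : (p : ℤ) ∣ (h : ℤ) := by
      have := dvd_sub h2 h1
      simpa using this
    exact_mod_cast h3

/-- an upper bound for the product over the primes -/
theorem V_id_le : ∃ H₀ : ℕ, ∀ H : ℕ, H₀ ≤ H → V (fun n => n) 1 H ≤ 2 / Real.log H := by
  have h := Pool.Agent.H305R2.mertens_three
  have h1 : (1 / 2 : ℝ) < Real.exp Real.eulerMascheroniConstant := by
    have : (1 : ℝ) ≤ Real.exp Real.eulerMascheroniConstant := by
      apply Real.one_le_exp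
      have := Real.one_half_lt_eulerMascheroniConstant
      linarith
    linarith
  have h2 := h.eventually (lt_mem_nhds h1)
  obtain ⟨H₀, hH₀⟩ := (h2.and (eventually_ge_atTop 2)).exists_forall_of_atTop
  refine ⟨H₀, fun H hH => ?_⟩
  obtain ⟨h3, h4⟩ := hH₀ H hH
  have hlog : 0 < Real.log H := Real.log_pos (by exact_mod_cast h4)
  rw [lt_div_iff₀ hlog] at h3
  have h5 : V (fun n => n) 1 H = (∏ p ∈ (Icc 1 H).filter Nat.Prime, (1 - (p : ℝ)⁻¹)⁻¹)⁻¹ := by
    unfold V PS
    rw [← prod_inv_distrib]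
    have h6 : (Icc 1 H).filter (fun p => p.Prime ∧ ¬ p ∣ 1) = (Icc 1 H).filter Nat.Prime := by
      ext p
      rw [mem_filter, mem_filter]
      constructor
      · rintro ⟨h7, h8, _⟩
        exact ⟨h7, h8⟩
      · rintro ⟨h7, h8⟩
        exact ⟨h7, h8, fun h9 => h8.one_lt.ne' (Nat.dvd_one.1 h9)⟩
    rw [h6]
    refine prod_congr rfl fun p hp => ?_
    rw [mem_filter] at hp
    rw [inv_inv, rt_id p hp.2, Nat.cast_one, one_div]
  rw [h5]
  have h8 : 0 < 1 / 2 * Real.log H := by positivity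
  calc (∏ p ∈ (Icc 1 H).filter Nat.Prime, (1 - (p : ℝ)⁻¹)⁻¹)⁻¹ ≤ (1 / 2 * Real.log H)⁻¹ :=
        inv_anti₀ h8 h3.le
    _ = 2 / Real.log H := by
        rw [mul_inv, one_div, inv_inv]
        rfl

/-- **Szemerédi's theorem for dense sets of rough numbers in all short intervals.** -/
theorem herd (k : ℕ) (θ ε c : ℝ) (hθ : 0 < θ) (hε : 0 < ε) (hc : 0 < c) :
    ∃ B N₀ : ℕ, ∀ N X Y : ℕ, N₀ ≤ N → (N : ℝ) ^ θ ≤ Y → Y ≤ N → X + Y ≤ N ^ 2 →
      ∀ A : Finset ℕ, A ⊆ Ioc X (X + Y) →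
      (∀ n ∈ A, ∀ p : ℕ, p.Prime → p ∣ n → (N : ℝ) ^ ε < p) →
      c * Y / Real.log N ≤ A.card →
      ∃ a d : ℕ, 1 ≤ d ∧ (d : ℝ) ≤ Real.log N ^ B ∧ ∀ i < k, a + i * d ∈ A := by
  obtain ⟨g, hg⟩ := exists_nat_gt (2 / θ)
  have hg1 : 1 ≤ g := by
    by_contra h0
    have h1 : g = 0 := by omega
    rw [h1, Nat.cast_zero] at hg
    have : 0 < 2 / θ := by positivity
    linarith
  have hκ : 0 < c * θ / 2 := by positivity
  obtain ⟨B, H₀, hE⟩ := eng_all (max k 2) g ε (c * θ / 2) (le_max_right _ _) hε hκ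
  obtain ⟨H₁, hV⟩ := V_id_le
  have hgθ : 2 < (g : ℝ) * θ := by
    rw [div_lt_iff₀ hθ] at hg
    exact hg
  -- `N ^ θ` is large
  have hlim : Tendsto (fun N : ℕ => (N : ℝ) ^ θ) atTop atTop :=
    (tendsto_rpow_atTop hθ).comp tendsto_natCast_atTop_atTop
  obtain ⟨N₁, hN₁⟩ := (hlim.eventually_ge_atTop ((max (max H₀ H₁) 3 : ℕ) : ℝ)).exists_forall_of_atTop
  refine ⟨B, max N₁ 3, fun N X Y hN hNY hYN hXN A hA hAp hAc => ?_⟩
  have hN1 := hN₁ N ((le_max_left _ _).trans hN)
  have hN3 : 3 ≤ N := (le_max_right _ _).trans hN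
  have hYm : max (max H₀ H₁) 3 ≤ Y := by exact_mod_cast hN1.trans hNY
  have hY0 : H₀ ≤ Y := (le_max_left _ _).trans ((le_max_left _ _).trans hYm)
  have hY1 : H₁ ≤ Y := (le_max_right _ _).trans ((le_max_left _ _).trans hYm)
  have hY3 : 3 ≤ Y := (le_max_right _ _).trans hYm
  have hNr3 : (3 : ℝ) ≤ N := by exact_mod_cast hN3
  have hNr : (1 : ℝ) < N := by linarith
  have hlogN : 0 < Real.log N := Real.log_pos hNr
  have hYr : (3 : ℝ) ≤ Y := by exact_mod_cast hY3
  have hlogY1 : 1 ≤ Real.log Y := by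
    rw [Real.le_log_iff_exp_le (by linarith)]
    have := Real.exp_one_lt_d9
    linarith
  have hlogYN : θ * Real.log N ≤ Real.log Y := by
    rw [← Real.log_rpow (by linarith)]
    exact Real.log_le_log (Real.rpow_pos_of_pos (by linarith) _) hNY
  obtain ⟨a, d, hd1, hd2, hd3⟩ := hE (fun n => n) X Y A (sys_id g hg1) hY0 (by
      intro n hn
      rw [mem_Ioc] at hn
      refine ⟨by
        show (n : ℤ) ≠ 0
        omega, ?_⟩
      show |(n : ℤ)| ≤ (Y : ℤ) ^ g
      rw [abs_of_nonneg (by omega)]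
      have h1 : (n : ℝ) ≤ (Y : ℝ) ^ g := by
        calc (n : ℝ) ≤ (N : ℝ) ^ 2 := by
              have : n ≤ N ^ 2 := hn.2.trans hXN
              exact_mod_cast this
          _ = (N : ℝ) ^ (2 : ℝ) := by rw [Real.rpow_two]
          _ ≤ (N : ℝ) ^ (θ * g) := by
              apply Real.rpow_le_rpow_of_exponent_le hNr.le
              linarith
          _ = ((N : ℝ) ^ θ) ^ (g : ℝ) := by rw [Real.rpow_mul (by linarith)]
          _ = ((N : ℝ) ^ θ) ^ g := by rw [Real.rpow_natCast]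
          _ ≤ (Y : ℝ) ^ g := pow_le_pow_left₀ (by positivity) hNY g
      exact_mod_cast h1) hA (by
      intro n hn p hp hpY hpn
      have h1 : p ∣ n := by exact_mod_cast hpn
      have h2 := hAp n hn p hp h1
      have h3 : (Y : ℝ) ^ ε ≤ (N : ℝ) ^ ε :=
        Real.rpow_le_rpow (by positivity) (by exact_mod_cast hYN) hε.le
      linarith) (by
      refine le_trans ?_ hAc
      have h1 := hV Y hY1
      have h2 : 2 / Real.log Y ≤ 2 / (θ * Real.log N) :=
        div_le_div_of_nonneg_left (by norm_num) (by positivity) hlogYN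
      calc c * θ / 2 * (Y * V (fun n => n) 1 Y) ≤ c * θ / 2 * (Y * (2 / (θ * Real.log N))) := by
            apply mul_le_mul_of_nonneg_left _ hκ.le
            apply mul_le_mul_of_nonneg_left (h1.trans h2) (by positivity)
        _ = c * Y / Real.log N := by
            field_simp)
  refine ⟨a, d, hd1, hd2.trans ?_, fun i hi => hd3 i (hi.trans_le (le_max_left _ _))⟩
  apply pow_le_pow_left₀ (by linarith)
  exact Real.log_le_log (by linarith) (by exact_mod_cast hYN)

/-- Colourings: an interval of length at least `N ^ θ` with many primes contains monochromatic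
progressions of primes. -/
theorem colour (k r : ℕ) (θ c : ℝ) (hr : 1 ≤ r) (hθ : 0 < θ) (hc : 0 < c) :
    ∃ B N₀ : ℕ, ∀ N X Y : ℕ, N₀ ≤ N → (N : ℝ) ^ θ ≤ Y → Y ≤ N → X + Y ≤ N ^ 2 →
      (N : ℝ) ^ (1 / 2 : ℝ) ≤ X + 1 → ∀ A : Finset ℕ, A ⊆ Ioc X (X + Y) → (∀ n ∈ A, n.Prime) →
      c * Y / Real.log N ≤ A.card → ∀ χ : ℕ → Fin r,
      ∃ a d : ℕ, 1 ≤ d ∧ (d : ℝ) ≤ Real.log N ^ B ∧
        ∀ i < k, a + i * d ∈ A ∧ χ (a + i * d) = χ a := by
  classical
  obtain ⟨B, N₀, h⟩ := herd (max k 1) θ (1 / 3) (c / r) hθ (by norm_num)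
    (by have : (0 : ℝ) < r := by exact_mod_cast hr
        positivity)
  refine ⟨B, max N₀ 2, fun N X Y hN hNY hYN hXN hX A hA hAp hAc χ => ?_⟩
  have hN2 : 2 ≤ N := (le_max_right _ _).trans hN
  have hNr : (1 : ℝ) < N := by
    have : (2 : ℝ) ≤ N := by exact_mod_cast hN2
    linarith
  have hrr : (0 : ℝ) < r := by exact_mod_cast hr
  -- a colour class with many elements
  obtain ⟨j, hj⟩ : ∃ j : Fin r, (A.card : ℝ) / r ≤ ((A.filter (fun n => χ n = j)).card : ℝ) := by
    by_contra hcon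
    push Not at hcon
    have h1 : (A.card : ℝ) = ∑ j : Fin r, ((A.filter (fun n => χ n = j)).card : ℝ) := by
      have := card_eq_sum_card_fiberwise (s := A) (t := (univ : Finset (Fin r))) (f := χ)
        (fun x _ => by simp)
      exact_mod_cast this
    have h2 : ∑ j : Fin r, ((A.filter (fun n => χ n = j)).card : ℝ) <
        ∑ _j : Fin r, (A.card : ℝ) / r :=
      sum_lt_sum_of_nonempty ⟨⟨0, hr⟩, mem_univ _⟩ (fun j _ => hcon j)
    rw [← h1, sum_const, card_univ, Fintype.card_fin, nsmul_eq_mul, mul_div_cancel₀ _ hrr.ne'] at h2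
    exact lt_irrefl _ h2
  obtain ⟨a, d, hd1, hd2, hd3⟩ := h N X Y ((le_max_left _ _).trans hN) hNY hYN hXN
    (A.filter (fun n => χ n = j)) ((filter_subset _ _).trans hA) (by
      intro n hn p hp hpn
      have hn1 := (mem_filter.1 hn).1
      have hnp := hAp n hn1
      have hpn' : p = n := (Nat.prime_dvd_prime_iff_eq hp hnp).1 hpn
      rw [hpn']
      have hn2 := (mem_Ioc.1 (hA hn1)).1
      have h1 : (X : ℝ) + 1 ≤ n := by exact_mod_cast hn2
      calc (N : ℝ) ^ (1 / 3 : ℝ) < (N : ℝ) ^ (1 / 2 : ℝ) :=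
            Real.rpow_lt_rpow_of_exponent_lt hNr (by norm_num)
        _ ≤ X + 1 := hX
        _ ≤ n := h1) (by
      refine le_trans (le_of_eq ?_) ((div_le_div_of_nonneg_right hAc hrr.le).trans hj)
      field_simp)
  have h0 := (mem_filter.1 (hd3 0 (by omega))).2
  rw [Nat.zero_mul, Nat.add_zero] at h0
  refine ⟨a, d, hd1, hd2, fun i hi => ?_⟩
  have h1 := mem_filter.1 (hd3 i (hi.trans_le (le_max_left _ _)))
  exact ⟨h1.1, by rw [h1.2, h0]⟩

end Pool.Agent.Y751.SI
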