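import Pool.Agent.Y751.SI.Herd

/-!
# Localisation of Szemerédi's theorem to windows of polylogarithmic length
-/

set_option autoImplicit false

open Finset Filter

namespace Pool.Agent.Y751.SI

/-- `S` contains `k` numbers in arithmetic progression with a positive difference of at most `D`. -/
def HasAP (k : ℕ) (D : ℝ) (S : Set ℕ) : Prop :=
  ∃ a d : ℕ, 1 ≤ d ∧ (d : ℝ) ≤ D ∧ ∀ i < k, a + i * d ∈ S

theorem HasAP.mono {k : ℕ} {D D' : ℝ} {S S' : Set ℕ} (h : HasAP k D S) (hD : D ≤ D') (hS : S ⊆ S') :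
    HasAP k D' S' := by
  obtain ⟨a, d, h1, h2, h3⟩ := h
  exact ⟨a, d, h1, h2.trans hD, fun i hi => hS (h3 i hi)⟩

/-- the core of a window has almost as many elements as the window -/
theorem core_card (S : Finset ℕ) (a b w : ℕ) (hS : S ⊆ Ioc a b) :
    (S.card : ℝ) - 2 * w ≤ ((S.filter (fun n => a + w < n ∧ n + w ≤ b)).card : ℝ) := by
  have h1 : S.card = (S.filter (fun n => a + w < n ∧ n + w ≤ b)).card +
      (S.filter (fun n => ¬ (a + w < n ∧ n + w ≤ b))).card :=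
    (card_filter_add_card_filter_not _).symm
  have h2 : (S.filter (fun n => ¬ (a + w < n ∧ n + w ≤ b))).card ≤ 2 * w := by
    calc (S.filter (fun n => ¬ (a + w < n ∧ n + w ≤ b))).card ≤
          (Ioc a (a + w) ∪ Ioc (b - w) b).card := by
          apply card_le_card
          intro n hn
          rw [mem_filter] at hn
          have := mem_Ioc.1 (hS hn.1)
          rw [mem_union, mem_Ioc, mem_Ioc]
          have h3 := hn.2
          rw [not_and_or] at h3
          rcases h3 with h3 | h3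
          · left; omega
          · right; omega
      _ ≤ (Ioc a (a + w)).card + (Ioc (b - w) b).card := card_union_le _ _
      _ ≤ 2 * w := by
          rw [Nat.card_Ioc, Nat.card_Ioc]
          omega
  have h3 : (S.card : ℝ) = ((S.filter (fun n => a + w < n ∧ n + w ≤ b)).card : ℝ) +
      ((S.filter (fun n => ¬ (a + w < n ∧ n + w ≤ b))).card : ℝ) := by exact_mod_cast h1
  have h4 : ((S.filter (fun n => ¬ (a + w < n ∧ n + w ≤ b))).card : ℝ) ≤ 2 * w := by exact_mod_cast h2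
  linarith

/-- Szemerédi's theorem in one of many disjoint windows. -/
theorem loc (k : ℕ) (θ η δ γ : ℝ) (hθ : 0 < θ) (hη : 0 < η) (hδ : 0 < δ) (hγ : 0 < γ) :
    ∃ B N₀ : ℕ, 2 ≤ B ∧ ∀ X Y : ℕ, N₀ ≤ X → (X : ℝ) ^ θ ≤ Y → 3 * Y ≤ X →
      ∀ (u : Finset ℕ) (s t : ℕ → ℕ) (S : ℕ → Finset ℕ), u ⊆ Ioc X (X + Y) →
      (∀ m ∈ u, s m ≤ Y ∧ t m ≤ Y ∧ Real.log X ^ B ≤ (s m : ℝ) + t m ∧
        S m ⊆ Ioc (m - s m) (m + t m) ∧ δ * ((s m : ℝ) + t m) / Real.log X ≤ (S m).card) →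
      (∀ m ∈ u, ∀ m' ∈ u, m ≠ m' →
        Disjoint (Ioc (m - s m) (m + t m)) (Ioc (m' - s m') (m' + t m'))) →
      (∀ m ∈ u, ∀ n ∈ S m, ∀ p : ℕ, p.Prime → p ∣ n → (X : ℝ) ^ η < p) →
      γ * Y ≤ ∑ m ∈ u, ((s m : ℝ) + t m) →
      ∃ m ∈ u, HasAP k (Real.log X ^ B) (S m : Set ℕ) := by
  classical
  obtain ⟨B, N₀, hH⟩ := herd (max k 1) θ η (δ * γ / 6) hθ hη (by positivity)
  obtain ⟨N₁, hN₁⟩ := ((Real.tendsto_log_atTop.comp tendsto_natCast_atTop_atTop).eventually_ge_atTop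
    (max (8 / δ) 1)).exists_forall_of_atTop
  refine ⟨B + 2, max N₀ (max N₁ 2), by omega, fun X Y hX hXY hYX u s t S hu hw hdis hrough hsum => ?_⟩
  have hX0 : N₀ ≤ X := (le_max_left _ _).trans hX
  have hX1 : N₁ ≤ X := ((le_max_left _ _).trans (le_max_right _ _)).trans hX
  have hX2 : 2 ≤ X := ((le_max_right _ _).trans (le_max_right _ _)).trans hX
  have hl := hN₁ X hX1
  simp only [Function.comp_apply] at hl
  have hl8 : 8 / δ ≤ Real.log X := (le_max_left _ _).trans hl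
  have hl1 : 1 ≤ Real.log X := (le_max_right _ _).trans hl
  have hl0 : 0 < Real.log X := by linarith
  obtain ⟨w, hw0⟩ : ∃ w : ℕ, w = ⌊Real.log X ^ B⌋₊ + 1 := ⟨_, rfl⟩
  have hw1 : Real.log X ^ B < w := by
    rw [hw0]
    push_cast
    exact Nat.lt_floor_add_one _
  have hw2 : (w : ℝ) ≤ 2 * Real.log X ^ B := by
    rw [hw0]
    push_cast
    have h1 : ((⌊Real.log X ^ B⌋₊ : ℕ) : ℝ) ≤ Real.log X ^ B := Nat.floor_le (by positivity)
    have h2 : 1 ≤ Real.log X ^ B := one_le_pow₀ hl1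
    linarith
  -- the cores
  have hcore : ∀ m ∈ u, δ / 2 * ((s m : ℝ) + t m) / Real.log X ≤
      (((S m).filter (fun n => m - s m + w < n ∧ n + w ≤ m + t m)).card : ℝ) := by
    intro m hm
    obtain ⟨h1, h2, h3, h4, h5⟩ := hw m hm
    have h6 := core_card (S m) (m - s m) (m + t m) w h4
    have h7 : 2 * (w : ℝ) ≤ δ / 2 * ((s m : ℝ) + t m) / Real.log X := by
      rw [le_div_iff₀ hl0]
      have h8 : 8 ≤ δ * Real.log X := by
        rw [div_le_iff₀ hδ] at hl8
        linarith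
      have h9 : 0 ≤ Real.log X ^ B := by positivity
      calc 2 * (w : ℝ) * Real.log X ≤ 2 * (2 * Real.log X ^ B) * Real.log X := by
            apply mul_le_mul_of_nonneg_right _ hl0.le
            linarith
        _ = 8 * (Real.log X ^ B * Real.log X) / 2 := by ring
        _ ≤ (δ * Real.log X) * (Real.log X ^ B * Real.log X) / 2 := by
            apply div_le_div_of_nonneg_right _ (by norm_num)
            apply mul_le_mul_of_nonneg_right h8 (by positivity)
        _ = δ / 2 * Real.log X ^ (B + 2) := by ring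
        _ ≤ δ / 2 * ((s m : ℝ) + t m) := mul_le_mul_of_nonneg_left h3 (by positivity)
    have h8 : δ * ((s m : ℝ) + t m) / Real.log X =
        δ / 2 * ((s m : ℝ) + t m) / Real.log X + δ / 2 * ((s m : ℝ) + t m) / Real.log X := by ring
    linarith
  have hpd : ∀ m ∈ u, ∀ m' ∈ u, m ≠ m' →
      Disjoint ((S m).filter (fun n => m - s m + w < n ∧ n + w ≤ m + t m))
        ((S m').filter (fun n => m' - s m' + w < n ∧ n + w ≤ m' + t m')) := by
    intro m hm m' hm' hne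
    have h1 := hdis m hm m' hm' hne
    rw [disjoint_left] at h1 ⊢
    intro n hn hn'
    exact h1 ((hw m hm).2.2.2.1 (mem_filter.1 hn).1) ((hw m' hm').2.2.2.1 (mem_filter.1 hn').1)
  obtain ⟨a, d, hd1, hd2, hd3⟩ := hH X (X - Y) (3 * Y) hX0 (by
      push_cast
      have : (0 : ℝ) ≤ Y := Nat.cast_nonneg _
      linarith) hYX (by
      calc X - Y + 3 * Y ≤ 2 * X := by omega
        _ ≤ X * X := Nat.mul_le_mul_right X hX2
        _ = X ^ 2 := (sq X).symm)
    (u.biUnion (fun m => (S m).filter (fun n => m - s m + w < n ∧ n + w ≤ m + t m))) (by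
      intro n hn
      rw [mem_biUnion] at hn
      obtain ⟨m, hm, hn⟩ := hn
      rw [mem_filter] at hn
      have h1 := mem_Ioc.1 ((hw m hm).2.2.2.1 hn.1)
      have h2 := mem_Ioc.1 (hu hm)
      have h3 := (hw m hm).1
      have h4 := (hw m hm).2.1
      rw [mem_Ioc]
      omega) (by
      intro n hn
      rw [mem_biUnion] at hn
      obtain ⟨m, hm, hn⟩ := hn
      exact hrough m hm n (mem_filter.1 hn).1) (by
      rw [card_biUnion (fun m hm m' hm' hne => hpd m hm m' hm' hne)]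
      push_cast
      calc δ * γ / 6 * (3 * (Y : ℝ)) / Real.log X = δ / 2 / Real.log X * (γ * Y) := by ring
        _ ≤ δ / 2 / Real.log X * ∑ m ∈ u, ((s m : ℝ) + t m) :=
            mul_le_mul_of_nonneg_left hsum (by positivity)
        _ = ∑ m ∈ u, δ / 2 * ((s m : ℝ) + t m) / Real.log X := by
            rw [mul_sum]
            exact sum_congr rfl fun m _ => by ring
        _ ≤ _ := sum_le_sum hcore)
  -- all terms are in the same window
  have hk1 : 0 < max k 1 := by omega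
  have h0 := hd3 0 hk1
  rw [mem_biUnion] at h0
  obtain ⟨m, hm, h0⟩ := h0
  rw [Nat.zero_mul, Nat.add_zero] at h0
  have hdw : d ≤ w := by
    have : (d : ℝ) ≤ w := by linarith
    exact_mod_cast this
  have hall : ∀ i < max k 1,
      a + i * d ∈ (S m).filter (fun n => m - s m + w < n ∧ n + w ≤ m + t m) := by
    intro i
    induction i with
    | zero =>
      intro _
      rw [Nat.zero_mul, Nat.add_zero]
      exact h0
    | succ i ih =>
      intro hi
      have h1 := ih (by omega)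
      have h2 := hd3 (i + 1) hi
      rw [mem_biUnion] at h2
      obtain ⟨m', hm', h2⟩ := h2
      by_cases hmm : m = m'
      · rw [← hmm] at h2
        exact h2
      · exfalso
        have h3 := (hw m' hm').2.2.2.1 (mem_filter.1 h2).1
        have h4 := mem_filter.1 h1
        have h5 : a + (i + 1) * d = a + i * d + d := by ring
        have h6 : a + (i + 1) * d ∈ Ioc (m - s m) (m + t m) := by
          rw [mem_Ioc, h5]
          omega
        exact (disjoint_left.1 (hdis m hm m' hm' hmm)) h6 h3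
  refine ⟨m, hm, a, d, hd1, hd2.trans (pow_le_pow_right₀ hl1 (by omega)), fun i hi => ?_⟩
  exact mem_coe.2 (mem_filter.1 (hall i (hi.trans_le (le_max_left _ _)))).1

/-- Vitali's lemma for windows of integers. -/
theorem vit (E : Finset ℕ) (s t : ℕ → ℕ) (h1 : ∀ m ∈ E, 1 ≤ s m + t m) (h2 : ∀ m ∈ E, s m ≤ m) :
    ∃ u ⊆ E, (∀ m ∈ u, ∀ m' ∈ u, m ≠ m' →
        Disjoint (Ioc (m - s m) (m + t m)) (Ioc (m' - s m') (m' + t m'))) ∧
      ∀ m ∈ E, ∃ b ∈ u, m ≤ b + 3 * (s b + t b) ∧ b ≤ m + 3 * (s b + t b) := by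
  classical
  obtain ⟨u, hu, hd, hc⟩ := Vitali.exists_disjoint_subfamily_covering_enlargement
    (fun m : ℕ => Set.Ioc (m - s m) (m + t m)) (E : Set ℕ) (fun m => ((s m + t m : ℕ) : ℝ)) 2
    (by norm_num) (fun m _ => Nat.cast_nonneg _) ((∑ m ∈ E, (s m + t m) : ℕ) : ℝ)
    (fun m hm => by
      apply Nat.cast_le.2
      exact single_le_sum (f := fun m => s m + t m) (fun _ _ => Nat.zero_le _) hm)
    (fun m hm => ⟨m + t m, by
      rw [Set.mem_Ioc]
      have e1 := h1 m hm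
      have e2 := h2 m hm
      omega⟩)
  refine ⟨E.filter (fun m => m ∈ u), filter_subset _ _, ?_, ?_⟩
  · intro m hm m' hm' hne
    have h3 := hd (mem_filter.1 hm).2 (mem_filter.1 hm').2 hne
    rw [disjoint_left]
    intro n hn hn'
    rw [mem_Ioc] at hn hn'
    exact (Set.disjoint_left.1 h3) hn hn'
  · intro m hm
    obtain ⟨b, hb, ⟨x, hx1, hx2⟩, hL⟩ := hc m hm
    have hbE : b ∈ E := hu hb
    have hL' : s m + t m ≤ 2 * (s b + t b) := by
      have : ((s m + t m : ℕ) : ℝ) ≤ ((2 * (s b + t b) : ℕ) : ℝ) := by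
        push_cast at hL ⊢
        exact hL
      exact_mod_cast this
    have e1 := h2 m hm
    have e2 := h2 b hbE
    rw [Set.mem_Ioc] at hx1 hx2
    refine ⟨b, mem_filter.2 ⟨hbE, hb⟩, ?_, ?_⟩ <;> omega

/-- Almost all integers are such that Szemerédi's theorem holds in all windows around them. -/
theorem ints (k : ℕ) (θ η δ ε : ℝ) (hθ : 0 < θ) (hη : 0 < η) (hδ : 0 < δ) (hε : 0 < ε) :
    ∃ B N₀ : ℕ, 2 ≤ B ∧ ∀ X Y : ℕ, N₀ ≤ X → (X : ℝ) ^ θ ≤ Y → 3 * Y ≤ X →
      ∀ E : Finset ℕ, E ⊆ Ioc X (X + Y) →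
      (∀ m ∈ E, ∃ s t : ℕ, s ≤ Y ∧ t ≤ Y ∧ Real.log X ^ B ≤ (s : ℝ) + t ∧
        ∃ S : Finset ℕ, S ⊆ Ioc (m - s) (m + t) ∧ δ * ((s : ℝ) + t) / Real.log X ≤ S.card ∧
          (∀ n ∈ S, ∀ p : ℕ, p.Prime → p ∣ n → (X : ℝ) ^ η < p) ∧
          ¬ HasAP k (Real.log X ^ B) (S : Set ℕ)) →
      (E.card : ℝ) ≤ ε * Y := by
  classical
  obtain ⟨B, N₀, hB, hL⟩ := loc k θ η δ (ε / 7) hθ hη hδ (by positivity)
  refine ⟨B, max N₀ 3, hB, fun X Y hX hXY hYX E hE hbad => ?_⟩
  have hX0 : N₀ ≤ X := (le_max_left _ _).trans hX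
  have hX3 : 3 ≤ X := (le_max_right _ _).trans hX
  have hl1 : 1 ≤ Real.log X := by
    rw [Real.le_log_iff_exp_le (by positivity)]
    have h3 : (3 : ℝ) ≤ X := by exact_mod_cast hX3
    have := Real.exp_one_lt_d9
    linarith
  by_contra hcon
  push Not at hcon
  have hch : ∀ m : ℕ, ∃ (s t : ℕ) (S : Finset ℕ), m ∈ E → s ≤ Y ∧ t ≤ Y ∧
      Real.log X ^ B ≤ (s : ℝ) + t ∧ S ⊆ Ioc (m - s) (m + t) ∧
      δ * ((s : ℝ) + t) / Real.log X ≤ S.card ∧
      (∀ n ∈ S, ∀ p : ℕ, p.Prime → p ∣ n → (X : ℝ) ^ η < p) ∧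
      ¬ HasAP k (Real.log X ^ B) (S : Set ℕ) := by
    intro m
    by_cases hm : m ∈ E
    · obtain ⟨s, t, h1, h2, h3, S, h4, h5, h6, h7⟩ := hbad m hm
      exact ⟨s, t, S, fun _ => ⟨h1, h2, h3, h4, h5, h6, h7⟩⟩
    · exact ⟨0, 0, ∅, fun h => absurd h hm⟩
  choose s t S hP using hch
  have hlen : ∀ m ∈ E, 1 ≤ s m + t m := by
    intro m hm
    have h1 := (hP m hm).2.2.1
    have h2 : 1 ≤ Real.log X ^ B := one_le_pow₀ hl1
    have h3 : ((1 : ℕ) : ℝ) ≤ ((s m + t m : ℕ) : ℝ) := by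
      push_cast
      linarith
    exact_mod_cast h3
  obtain ⟨u, hu, hd, hc⟩ := vit E s t hlen (fun m hm => by
    have h1 := (hP m hm).1
    have h2 := mem_Ioc.1 (hE hm)
    omega)
  have hcard : (E.card : ℝ) ≤ 7 * ∑ m ∈ u, ((s m : ℝ) + t m) := by
    have h1 : E ⊆ u.biUnion (fun b => Icc (b - 3 * (s b + t b)) (b + 3 * (s b + t b))) := by
      intro m hm
      obtain ⟨b, hb, h1, h2⟩ := hc m hm
      rw [mem_biUnion]
      refine ⟨b, hb, ?_⟩
      rw [mem_Icc]
      omega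
    have h2 : E.card ≤ ∑ b ∈ u, 7 * (s b + t b) := by
      refine (card_le_card h1).trans (card_biUnion_le.trans (sum_le_sum fun b hb => ?_))
      rw [Nat.card_Icc]
      have := hlen b (hu hb)
      omega
    have h3 : (E.card : ℝ) ≤ ((∑ b ∈ u, 7 * (s b + t b) : ℕ) : ℝ) := by exact_mod_cast h2
    refine h3.trans (le_of_eq ?_)
    push_cast
    rw [mul_sum]
  obtain ⟨m, hm, hap⟩ := hL X Y hX0 hXY hYX u s t S (hu.trans hE)
    (fun m hm => ⟨(hP m (hu hm)).1, (hP m (hu hm)).2.1, (hP m (hu hm)).2.2.1, (hP m (hu hm)).2.2.2.1,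
      (hP m (hu hm)).2.2.2.2.1⟩) hd (fun m hm => (hP m (hu hm)).2.2.2.2.2.1) (by linarith)
  exact (hP m (hu hm)).2.2.2.2.2.2 hap

end Pool.Agent.Y751.SI
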