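import Pool.Agent.Y751.SI.Loc
import Pool.Agent.Results.MP_76a5fe_nt.RegularPoints

/-!
# Integers around which all windows of polylogarithmic length contain progressions of primes
-/

set_option autoImplicit false

open Finset Filter

namespace Pool.Agent.Y751.SI

/-- Szemerédi's theorem holds for the numbers without prime factors up to `X ^ η` in all windows around `m`
of length at least `log ^ B X`. -/
def SzPoint (k : ℕ) (η δ : ℝ) (B X Y m : ℕ) : Prop :=
  ∀ s t : ℕ, s ≤ Y → t ≤ Y → Real.log X ^ B ≤ (s : ℝ) + t → ∀ S : Finset ℕ, S ⊆ Ioc (m - s) (m + t) →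
    δ * ((s : ℝ) + t) / Real.log X ≤ S.card →
    (∀ n ∈ S, ∀ p : ℕ, p.Prime → p ∣ n → (X : ℝ) ^ η < p) → HasAP k (Real.log X ^ B) (S : Set ℕ)

open Classical in
theorem most (k : ℕ) (θ η δ ε : ℝ) (hθ : 0 < θ) (hη : 0 < η) (hδ : 0 < δ) (hε : 0 < ε) :
    ∃ B : ℕ, ∀ᶠ X : ℕ in atTop, ∀ Y : ℕ, (X : ℝ) ^ θ ≤ Y → 3 * Y ≤ X →
      (((Ioc X (X + Y)).filter (fun m => ¬ SzPoint k η δ B X Y m)).card : ℝ) ≤ ε * Y := by
  obtain ⟨B, N₀, -, h⟩ := ints k θ η δ ε hθ hη hδ hε
  refine ⟨B, ?_⟩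
  filter_upwards [eventually_ge_atTop N₀] with X hX Y h1 h2
  refine h X Y hX h1 h2 _ (filter_subset _ _) fun m hm => ?_
  have h3 := (mem_filter.1 hm).2
  unfold SzPoint at h3
  push Not at h3
  obtain ⟨s, t, h4, h5, h6, S, h7, h8, h9, h10⟩ := h3
  exact ⟨s, t, h4, h5, h6, S, h7, h8, h9, h10⟩

open Classical in
theorem pts : ∃ θ c : ℝ, 0 < θ ∧ θ < 1 ∧ 0 < c ∧ ∀ k q : ℕ, 1 ≤ q → ∃ B : ℕ, ∀ᶠ X : ℕ in atTop,
    ∀ Y : ℕ, (X : ℝ) ^ θ ≤ Y → 3 * Y ≤ X →
      c * Y ≤ (((Ioc X (X + Y)).filter (fun m => ∀ a b : ℕ, a ≤ m → m ≤ b →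
        Real.log m ^ B ≤ (b : ℝ) - a → ∀ χ : ℕ → Fin q, ∃ j : Fin q,
        HasAP k (Real.log m ^ B) {n | n.Prime ∧ a < n ∧ n ≤ b ∧ χ n = j})).card : ℝ) := by
  obtain ⟨⟨θ, hθ0, hθ1, hS⟩, hreg⟩ := Pool.Agent.Results.MP_76a5fe_nt.RegularPoints.result
  obtain ⟨c₁, c₂, K, c, hc₁, hc₂, hK, hc, hR⟩ := hreg θ hθ0 hθ1.le hS
  refine ⟨θ, c / 2, hθ0, hθ1, by positivity, fun k q hq => ?_⟩
  have hqr : (0 : ℝ) < q := by exact_mod_cast hq
  obtain ⟨B, hB⟩ := most k θ (1 / 2) (c₁ / (2 * q)) (c / 2) hθ0 (by norm_num) (by positivity)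
    (by positivity)
  have hlogt := Real.tendsto_log_atTop.comp tendsto_natCast_atTop_atTop
  have e1 : ∀ᶠ X : ℕ in atTop, Real.log X ^ (B + 2) ≤ (X : ℝ) ^ θ := by
    have h3 := (isLittleO_log_rpow_rpow_atTop (B + 2 : ℕ) hθ0).comp_tendsto tendsto_natCast_atTop_atTop
    filter_upwards [h3.bound one_pos, eventually_ge_atTop 1] with X hX hX1
    simp only [Function.comp_apply, Real.norm_eq_abs] at hX
    have h5 : 0 ≤ (X : ℝ) ^ θ := by positivity
    rw [abs_of_nonneg h5, one_mul, Real.rpow_natCast] at hX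
    exact (le_abs_self _).trans hX
  refine ⟨B + 2, ?_⟩
  filter_upwards [hR, hB, e1, hlogt.eventually_ge_atTop (max (2 * K) 1), eventually_ge_atTop 16]
    with X hX1 hX2 hX3 hl hX16 Y hY1 hY2
  simp only [Function.comp_apply] at hl
  have hlK : 2 * K ≤ Real.log X := (le_max_left _ _).trans hl
  have hl1 : 1 ≤ Real.log X := (le_max_right _ _).trans hl
  have hl0 : 0 < Real.log X := by linarith
  have hXr : (16 : ℝ) ≤ X := by exact_mod_cast hX16
  have h1 := hX1 Y hY1 (by omega)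
  have h2 := hX2 Y hY1 hY2
  have hY0 : (0 : ℝ) ≤ Y := Nat.cast_nonneg _
  -- the good points
  have h3 : (((Ioc X (X + Y)).filter (fun m =>
      Pool.Agent.Results.MP_76a5fe_nt.RegularPoints.Regular c₁ c₂ K m)).card : ℝ) ≤
      (((Ioc X (X + Y)).filter (fun m => ∀ a b : ℕ, a ≤ m → m ≤ b →
        Real.log m ^ (B + 2) ≤ (b : ℝ) - a → ∀ χ : ℕ → Fin q, ∃ j : Fin q,
        HasAP k (Real.log m ^ (B + 2)) {n | n.Prime ∧ a < n ∧ n ≤ b ∧ χ n = j})).card : ℝ) +
      (((Ioc X (X + Y)).filter (fun m => ¬ SzPoint k (1 / 2) (c₁ / (2 * q)) B X Y m)).card : ℝ) := by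
    rw [← Nat.cast_add]
    apply Nat.cast_le.2
    refine le_trans (card_le_card ?_) (card_union_le _ _)
    intro m hm
    rw [mem_filter, mem_Ioc] at hm
    obtain ⟨⟨hm1, hm2⟩, hm3⟩ := hm
    rw [mem_union, mem_filter, mem_filter, mem_Ioc]
    by_cases hsz : SzPoint k (1 / 2) (c₁ / (2 * q)) B X Y m
    swap
    · exact Or.inr ⟨⟨hm1, hm2⟩, hsz⟩
    refine Or.inl ⟨⟨hm1, hm2⟩, fun a b ha hb hab χ => ?_⟩
    have hmr : (X : ℝ) < m := by exact_mod_cast hm1
    have hlm : Real.log X ≤ Real.log m := Real.log_le_log (by linarith) hmr.le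
    have hlm2 : Real.log m ≤ 2 * Real.log X := by
      have h4 : (m : ℝ) ≤ (X : ℝ) ^ 2 := by
        have : m ≤ 2 * X := by omega
        have h5 : (m : ℝ) ≤ 2 * X := by exact_mod_cast this
        nlinarith
      calc Real.log m ≤ Real.log ((X : ℝ) ^ 2) := Real.log_le_log (by linarith) h4
        _ = 2 * Real.log X := by rw [Real.log_pow]; norm_num
    -- the window
    obtain ⟨s, hs⟩ : ∃ s : ℕ, s = min (m - a) Y := ⟨_, rfl⟩
    obtain ⟨t, ht⟩ : ∃ t : ℕ, t = min (b - m) Y := ⟨_, rfl⟩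
    have hst : Real.log X ^ (B + 2) ≤ (s : ℝ) + t := by
      have h4 : b - a ≤ s + t ∨ Y ≤ s + t := by omega
      rcases h4 with h4 | h4
      · have h5 : ((b - a : ℕ) : ℝ) ≤ ((s + t : ℕ) : ℝ) := by exact_mod_cast h4
        rw [Nat.cast_sub (ha.trans hb)] at h5
        push_cast at h5
        calc Real.log X ^ (B + 2) ≤ Real.log m ^ (B + 2) := pow_le_pow_left₀ hl0.le hlm _
          _ ≤ (b : ℝ) - a := hab
          _ ≤ _ := h5
      · have h5 : (Y : ℝ) ≤ ((s + t : ℕ) : ℝ) := by exact_mod_cast h4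
        push_cast at h5
        exact hX3.trans (hY1.trans h5)
    have hpos : (0 : ℝ) < (s : ℝ) + t := by
      have : 1 ≤ Real.log X ^ (B + 2) := one_le_pow₀ hl1
      linarith
    have hcast : (((m + t : ℕ) : ℝ)) - ((m - s : ℕ) : ℝ) = (s : ℝ) + t := by
      rw [Nat.cast_sub (by omega)]
      push_cast
      ring
    have h6 := (hm3 (m - s) (m + t) (by omega) (by omega) (by
      rw [hcast]
      calc K * Real.log m ≤ K * (2 * Real.log X) := mul_le_mul_of_nonneg_left hlm2 hK.le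
        _ = (2 * K) * Real.log X := by ring
        _ ≤ Real.log X * Real.log X := mul_le_mul_of_nonneg_right hlK hl0.le
        _ = Real.log X ^ 2 := (sq _).symm
        _ ≤ Real.log X ^ (B + 2) := pow_le_pow_right₀ hl1 (by omega)
        _ ≤ _ := hst) (by
      rw [hcast]
      have h7 : s + t ≤ m := by omega
      exact_mod_cast h7)).1
    rw [hcast] at h6
    -- a colour class
    obtain ⟨j, hj⟩ : ∃ j : Fin q, c₁ / (2 * q) * ((s : ℝ) + t) / Real.log X ≤
        ((((Ioc (m - s) (m + t)).filter Nat.Prime).filter (fun n => χ n = j)).card : ℝ) := by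
      by_contra hcon
      push Not at hcon
      have h8 : (((Ioc (m - s) (m + t)).filter Nat.Prime).card : ℝ) = ∑ j : Fin q,
          ((((Ioc (m - s) (m + t)).filter Nat.Prime).filter (fun n => χ n = j)).card : ℝ) := by
        have := card_eq_sum_card_fiberwise (s := (Ioc (m - s) (m + t)).filter Nat.Prime)
          (t := (univ : Finset (Fin q))) (f := χ) (fun x _ => by simp)
        exact_mod_cast this
      have h9 : ∑ j : Fin q,
          ((((Ioc (m - s) (m + t)).filter Nat.Prime).filter (fun n => χ n = j)).card : ℝ) <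
          ∑ _j : Fin q, c₁ / (2 * q) * ((s : ℝ) + t) / Real.log X :=
        sum_lt_sum_of_nonempty ⟨⟨0, hq⟩, mem_univ _⟩ (fun j _ => hcon j)
      rw [← h8, sum_const, card_univ, Fintype.card_fin, nsmul_eq_mul] at h9
      have h10 : (q : ℝ) * (c₁ / (2 * q) * ((s : ℝ) + t) / Real.log X) =
          c₁ * ((s : ℝ) + t) / (2 * Real.log X) := by
        field_simp
      rw [h10] at h9
      have h11 : c₁ * ((s : ℝ) + t) / (2 * Real.log X) ≤ c₁ * ((s : ℝ) + t) / Real.log m :=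
        div_le_div_of_nonneg_left (by positivity) (by linarith) hlm2
      linarith
    have h12 := hsz s t (by omega) (by omega)
      ((pow_le_pow_right₀ hl1 (by omega : B ≤ B + 2)).trans hst)
      (((Ioc (m - s) (m + t)).filter Nat.Prime).filter (fun n => χ n = j))
      ((filter_subset _ _).trans (filter_subset _ _)) hj (by
        intro n hn p hp hpn
        rw [mem_filter, mem_filter, mem_Ioc] at hn
        rw [(Nat.prime_dvd_prime_iff_eq hp hn.1.2).1 hpn]
        have h13 : X < 2 * n := by omega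
        have h14 : (X : ℝ) < 2 * n := by exact_mod_cast h13
        rw [← Real.sqrt_eq_rpow]
        calc Real.sqrt X ≤ X / 2 := by
              rw [Real.sqrt_le_left (by linarith)]
              nlinarith
          _ < n := by linarith)
    refine ⟨j, h12.mono ?_ ?_⟩
    · calc Real.log X ^ B ≤ Real.log X ^ (B + 2) := pow_le_pow_right₀ hl1 (by omega)
        _ ≤ Real.log m ^ (B + 2) := pow_le_pow_left₀ hl0.le hlm _
    · intro n hn
      rw [mem_coe, mem_filter, mem_filter, mem_Ioc] at hn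
      exact ⟨hn.1.2, by omega, by omega, hn.2⟩
  linarith

end Pool.Agent.Y751.SI
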