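import Pool.Agent.Y751.SI.Loc
import Pool.Agent.TH977.PW.Inst

/-!
# Progressions at all scales around almost all elements of an arbitrary set of rough numbers
-/

set_option autoImplicit false

open Finset Filter

namespace Pool.Agent.Y751.SI

open Pool.Agent.TH977.PW (N Irregular RightOrder)

/-- All prime factors of `m` are larger than `m ^ (1 / r)`. -/
def Rgh (r : ℕ) : Set ℕ := {m | ∀ p : ℕ, p.Prime → p ∣ m → (m : ℝ) ^ (1 / (r : ℝ)) < (p : ℝ)}

open Classical in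
theorem elts (θ : ℝ) (hθ : 0 < θ) (hθ1 : θ ≤ 1) :
    ∃ r₀ : ℕ, 2 ≤ r₀ ∧ ∀ r : ℕ, r₀ ≤ r → ∀ k : ℕ, ∀ ε : ℝ, 0 < ε → ∃ B : ℕ,
      ∀ᶠ X : ℕ in atTop, ∀ Y : ℕ, (X : ℝ) ^ θ ≤ Y → 3 * Y ≤ X → ∀ A : Set ℕ, A ⊆ Rgh r →
        (N {m | m ∈ A ∧ ∃ s t : ℕ, s ≤ Y ∧ t ≤ Y ∧ Real.log X ^ B ≤ (s : ℝ) + t ∧
          ¬ HasAP k (Real.log X ^ B) {n | n ∈ A ∧ m - s < n ∧ n ≤ m + t}} X (X + Y) : ℝ) ≤
          ε * Y / Real.log X := by
  have hval : ∀ m : ℕ, ((1 : ℕ) : ℤ) * (m : ℤ) + 0 = ((m : ℕ) : ℤ) := fun m => by push_cast; ring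
  obtain ⟨r0, hr0, h0⟩ := Pool.Agent.TH977.PW.final_lin (fun _ : Fin 1 => 1) (fun _ => 0)
    (fun _ => one_pos)
    (fun i => by
      rw [Nat.cast_one]
      exact isCoprime_one_left) (fun i j _ _ => Subsingleton.elim i j)
    (fun p hp => ⟨1, fun _ h => by
      rw [hval] at h
      have : p ∣ 1 := by exact_mod_cast h
      exact hp.one_lt.ne' (Nat.dvd_one.1 this)⟩)
    Rgh Rgh 1 (Fintype.card_fin 1)
    (fun r m _ hm i p hp hd => hm p hp (by rw [hval] at hd; exact_mod_cast hd))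
    (fun r m _ h1 h2 => fun p hp hd => h1 0 p hp (by rw [hval]; exact_mod_cast hd)) θ hθ hθ1
  refine ⟨r0, hr0, fun r hr k ε hε => ?_⟩
  have hr2 : (2 : ℝ) ≤ r := by exact_mod_cast hr0.trans hr
  obtain ⟨c, hc, h1⟩ := (h0 r hr).2 (ε / 2) (by positivity)
  obtain ⟨B₁, h2⟩ := h1 1 one_pos
  obtain ⟨B, N₀, hB, hH⟩ := loc k θ (1 / (2 * r)) c (c * ε / 16) hθ (by positivity) hc (by positivity)
  refine ⟨B, ?_⟩
  have e1 : ∀ᶠ X : ℕ in atTop, Real.log X ≤ c * (X : ℝ) ^ θ := by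
    have h3 := (isLittleO_log_rpow_atTop hθ).comp_tendsto tendsto_natCast_atTop_atTop
    filter_upwards [h3.bound hc, eventually_ge_atTop 1] with X hX hX1
    simp only [Function.comp_apply, Real.norm_eq_abs] at hX
    have h5 : 0 ≤ (X : ℝ) ^ θ := by positivity
    rw [abs_of_nonneg h5] at hX
    exact (le_abs_self _).trans hX
  filter_upwards [h2, e1, eventually_ge_atTop N₀, eventually_ge_atTop 4,
    (Real.tendsto_log_atTop.comp tendsto_natCast_atTop_atTop).eventually_ge_atTop (max (1 / c) 1)]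
    with X hX hXl hXN hX4 hl Y hY1 hY2 A hA
  simp only [Function.comp_apply] at hl
  have hlc : 1 / c ≤ Real.log X := (le_max_left _ _).trans hl
  have hl1 : 1 ≤ Real.log X := (le_max_right _ _).trans hl
  have hl0 : 0 < Real.log X := by linarith
  have hXr : (4 : ℝ) ≤ X := by exact_mod_cast hX4
  have hm := hX Y hY1 (by omega) A hA
  rw [pow_one] at hm
  -- the bad elements which are regular
  obtain ⟨E, hE⟩ : ∃ E : Finset ℕ, E = (Ioc X (X + Y)).filter (fun m => (m ∈ A ∧ ∃ s t : ℕ, s ≤ Y ∧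
      t ≤ Y ∧ Real.log X ^ B ≤ (s : ℝ) + t ∧
      ¬ HasAP k (Real.log X ^ B) {n | n ∈ A ∧ m - s < n ∧ n ≤ m + t}) ∧
      m ∉ Irregular A 1 c 1 B₁ X Y) := ⟨_, rfl⟩
  have hsplit : (N {m | m ∈ A ∧ ∃ s t : ℕ, s ≤ Y ∧ t ≤ Y ∧ Real.log X ^ B ≤ (s : ℝ) + t ∧
      ¬ HasAP k (Real.log X ^ B) {n | n ∈ A ∧ m - s < n ∧ n ≤ m + t}} X (X + Y) : ℝ) ≤
      N (Irregular A 1 c 1 B₁ X Y) X (X + Y) + E.card := by
    obtain ⟨Q, hQ⟩ : ∃ Q : Set ℕ, Q = {m | m ∈ A ∧ ∃ s t : ℕ, s ≤ Y ∧ t ≤ Y ∧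
      Real.log X ^ B ≤ (s : ℝ) + t ∧
      ¬ HasAP k (Real.log X ^ B) {n | n ∈ A ∧ m - s < n ∧ n ≤ m + t}} := ⟨_, rfl⟩
    rw [← hQ]
    have : N Q X (X + Y) ≤ N (Irregular A 1 c 1 B₁ X Y) X (X + Y) + E.card := by
      unfold N
      refine le_trans (card_le_card ?_) (card_union_le _ _)
      intro m hm
      rw [mem_filter, hQ] at hm
      rw [mem_union, mem_filter, hE, mem_filter]
      by_cases h : m ∈ Irregular A 1 c 1 B₁ X Y
      · exact Or.inl ⟨hm.1, h⟩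
      · exact Or.inr ⟨hm.1, hm.2, h⟩
    exact_mod_cast this
  suffices hEc : (E.card : ℝ) ≤ ε / 2 * Y / Real.log X by
    refine hsplit.trans ?_
    have : ε * (Y : ℝ) / Real.log X = ε / 2 * Y / Real.log X + ε / 2 * Y / Real.log X := by ring
    linarith
  by_contra hcon
  push Not at hcon
  have hch : ∀ m : ℕ, ∃ s t : ℕ, m ∈ E → s ≤ Y ∧ t ≤ Y ∧ Real.log X ^ B ≤ (s : ℝ) + t ∧
      ¬ HasAP k (Real.log X ^ B) {n | n ∈ A ∧ m - s < n ∧ n ≤ m + t} := by
    intro m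
    by_cases hm : m ∈ E
    · rw [hE, mem_filter] at hm
      obtain ⟨s, t, h⟩ := hm.2.1.2
      exact ⟨s, t, fun _ => h⟩
    · exact ⟨0, 0, fun h => absurd h hm⟩
  choose s t hP using hch
  have hEI : ∀ m ∈ E, X < m ∧ m ≤ X + Y ∧ m ∈ A ∧ RightOrder A 1 c X Y m := by
    intro m hm
    rw [hE, mem_filter, mem_Ioc] at hm
    refine ⟨hm.1.1, hm.1.2, hm.2.1.1, ?_⟩
    by_contra hno
    exact hm.2.2 ⟨hm.2.1.1, fun h => hno h.1⟩
  have hlen : ∀ m ∈ E, 1 ≤ s m + t m := by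
    intro m hm
    have h1 := (hP m hm).2.2.1
    have h2 : 1 ≤ Real.log X ^ B := one_le_pow₀ hl1
    have h3 : ((1 : ℕ) : ℝ) ≤ ((s m + t m : ℕ) : ℝ) := by
      push_cast
      linarith
    exact_mod_cast h3
  -- windows of length at least `log ^ B X` are long enough
  have hlong : ∀ L : ℝ, Real.log X ^ B ≤ L → Real.log X ≤ c * L := by
    intro L hL
    have h3 : Real.log X ^ 2 ≤ L := (pow_le_pow_right₀ hl1 hB).trans hL
    have h4 : 1 ≤ c * Real.log X := by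
      rw [div_le_iff₀ hc] at hlc
      linarith
    calc Real.log X = 1 * Real.log X := (one_mul _).symm
      _ ≤ c * Real.log X * Real.log X := mul_le_mul_of_nonneg_right h4 hl0.le
      _ = c * Real.log X ^ 2 := by ring
      _ ≤ c * L := mul_le_mul_of_nonneg_left h3 hc.le
  obtain ⟨u, hu, hd, hcv⟩ := vit E s t hlen (fun m hm => by
    have h1 := (hP m hm).1
    have h2 := (hEI m hm).1
    omega)
  have hcard : (E.card : ℝ) ≤ 8 / (c * Real.log X) * ∑ m ∈ u, ((s m : ℝ) + t m) := by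
    have h1 : E ⊆ u.biUnion (fun b => (Ioc (b - min (3 * (s b + t b) + 1) Y)
        (b + min (3 * (s b + t b) + 1) Y)).filter (fun m => m ∈ A)) := by
      intro m hm
      obtain ⟨b, hb, h1, h2⟩ := hcv m hm
      have h3 := hEI m hm
      have h4 := hEI b (hu hb)
      rw [mem_biUnion]
      refine ⟨b, hb, ?_⟩
      rw [mem_filter, mem_Ioc]
      refine ⟨⟨?_, ?_⟩, h3.2.2.1⟩ <;> omega
    have h2 : (E.card : ℝ) ≤ ∑ b ∈ u, (N A (b - min (3 * (s b + t b) + 1) Y)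
        (b + min (3 * (s b + t b) + 1) Y) : ℝ) := by
      have := (card_le_card h1).trans card_biUnion_le
      have h3 : (E.card : ℝ) ≤ ((∑ b ∈ u, N A (b - min (3 * (s b + t b) + 1) Y)
        (b + min (3 * (s b + t b) + 1) Y) : ℕ) : ℝ) := Nat.cast_le.2 this
      rw [Nat.cast_sum] at h3
      exact h3
    refine h2.trans ?_
    rw [mul_sum]
    apply sum_le_sum
    intro b hb
    have h3 := (hEI b (hu hb)).2.2.2
    have h4 := hP b (hu hb)
    have hsb : (1 : ℝ) ≤ (s b : ℝ) + t b := by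
      have := hlen b (hu hb)
      exact_mod_cast this
    have hmin : Real.log X ≤
        c * (((min (3 * (s b + t b) + 1) Y : ℕ) : ℝ) + ((min (3 * (s b + t b) + 1) Y : ℕ) : ℝ)) := by
      rcases le_total (3 * (s b + t b) + 1) Y with h | h
      · rw [min_eq_left h]
        refine (hlong _ h4.2.2.1).trans (mul_le_mul_of_nonneg_left ?_ hc.le)
        push_cast
        linarith
      · rw [min_eq_right h]
        refine hXl.trans (mul_le_mul_of_nonneg_left ?_ hc.le)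
        have : (0 : ℝ) ≤ Y := Nat.cast_nonneg _
        linarith
    have h5 := (h3 (min (3 * (s b + t b) + 1) Y) (min (3 * (s b + t b) + 1) Y) (min_le_right _ _)
      (min_le_right _ _) (by rw [pow_one]; exact hmin)).2
    rw [pow_one] at h5
    refine h5.trans ?_
    have h6 : ((min (3 * (s b + t b) + 1) Y : ℕ) : ℝ) ≤ 3 * ((s b : ℝ) + t b) + 1 := by
      have : min (3 * (s b + t b) + 1) Y ≤ 3 * (s b + t b) + 1 := min_le_left _ _
      have h7 : ((min (3 * (s b + t b) + 1) Y : ℕ) : ℝ) ≤ ((3 * (s b + t b) + 1 : ℕ) : ℝ) :=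
        Nat.cast_le.2 this
      push_cast at h7 ⊢
      exact h7
    rw [div_mul_eq_mul_div]
    apply div_le_div_of_nonneg_right _ (by positivity)
    linarith
  obtain ⟨m, hm, hap⟩ := hH X Y hXN hY1 hY2 u s t
    (fun m => (Ioc (m - s m) (m + t m)).filter (fun n => n ∈ A)) (fun m hm => by
      have := hEI m (hu hm)
      rw [mem_Ioc]
      exact ⟨this.1, this.2.1⟩)
    (fun m hm => by
      have h3 := hP m (hu hm)
      have h4 := (hEI m (hu hm)).2.2.2 (s m) (t m) h3.1 h3.2.1 (by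
        rw [pow_one]
        exact hlong _ h3.2.2.1)
      rw [pow_one] at h4
      exact ⟨h3.1, h3.2.1, h3.2.2.1, filter_subset _ _, h4.1⟩) hd (by
      intro m hm n hn p hp hpn
      rw [mem_filter, mem_Ioc] at hn
      have h3 := hP m (hu hm)
      have h5 := hEI m (hu hm)
      have h4 := hA hn.2 p hp hpn
      refine lt_of_le_of_lt ?_ h4
      have hn2 : (X : ℝ) / 2 ≤ n := by
        have h5 : X ≤ 2 * n := by omega
        have h6 : (X : ℝ) ≤ 2 * n := by exact_mod_cast h5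
        linarith
      have h7 : (X : ℝ) ^ (1 / 2 : ℝ) ≤ n := by
        refine le_trans ?_ hn2
        rw [← Real.sqrt_eq_rpow, Real.sqrt_le_left (by linarith)]
        nlinarith
      calc (X : ℝ) ^ (1 / (2 * (r : ℝ))) = ((X : ℝ) ^ (1 / 2 : ℝ)) ^ (1 / (r : ℝ)) := by
            rw [← Real.rpow_mul (by linarith)]
            congr 1
            rw [one_div_mul_one_div]
        _ ≤ (n : ℝ) ^ (1 / (r : ℝ)) :=
            Real.rpow_le_rpow (by positivity) h7 (by positivity)) (by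
      have h3 : ε / 2 * Y / Real.log X ≤ 8 / (c * Real.log X) * ∑ m ∈ u, ((s m : ℝ) + t m) :=
        hcon.le.trans hcard
      have h4 : 8 / (c * Real.log X) * ∑ m ∈ u, ((s m : ℝ) + t m) =
          (8 / c * ∑ m ∈ u, ((s m : ℝ) + t m)) / Real.log X := by
        field_simp
      rw [h4] at h3
      have h5 := (div_le_div_iff_of_pos_right hl0).1 h3
      have h7 : 8 / c * ∑ m ∈ u, ((s m : ℝ) + t m) = (8 * ∑ m ∈ u, ((s m : ℝ) + t m)) / c := by
        rw [div_mul_eq_mul_div]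
      rw [h7, le_div_iff₀ hc] at h5
      linarith)
  refine (hP m (hu hm)).2.2.2 (hap.mono le_rfl ?_)
  intro n hn
  rw [mem_coe, mem_filter, mem_Ioc] at hn
  exact ⟨hn.2, hn.1.1, hn.1.2⟩

end Pool.Agent.Y751.SI
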