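import Pool.Agent.Y751.SI.Scales
import Pool.Agent.Results.MP_76a5fe_nt.ThinTranslatesPowerSaving
import Pool.Agent.H932R4.MO.Final

/-!
# Progressions of primes in the intervals `(x - x ^ ε, x)` at almost all thin translates
-/

set_option autoImplicit false

open Finset Filter

namespace Pool.Agent.Y751.SI

open Pool.Agent.Results.MP_76a5fe_nt.ThinTranslatesPowerSaving (primesIn Good energy num)

open Classical in
/-- At least `c |A|` elements `a` of `A` are such that for every colouring of the integers with `q` colours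
the interval `(x - x ^ ε, x)`, `x = a + b`, contains `k` primes of the same colour in arithmetic progression
with a difference of at most `D`. -/
noncomputable def Herds (c ε : ℝ) (k q : ℕ) (D : ℝ) (A : Finset ℕ) (b : ℕ) : Prop :=
  c * A.card ≤ ((A.filter fun a => ∀ χ : ℕ → Fin q, ∃ j : Fin q,
    HasAP k D {n | n.Prime ∧ ((a + b : ℕ) : ℝ) - ((a + b : ℕ) : ℝ) ^ ε < n ∧ n < a + b ∧ χ n = j}).card : ℝ)

/-- the set moved to the left -/
def lft (g : ℕ) (A : Finset ℕ) : Finset ℕ := (A.filter (fun a => g < a)).image (fun a => a - g)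

theorem lft_sub (g N : ℕ) (A : Finset ℕ) (hA : A ⊆ Icc 1 N) : lft g A ⊆ Icc 1 N := by
  intro a ha
  unfold lft at ha
  rw [mem_image] at ha
  obtain ⟨b, hb, rfl⟩ := ha
  rw [mem_filter] at hb
  have := mem_Icc.1 (hA hb.1)
  rw [mem_Icc]
  omega

theorem lft_card (g : ℕ) (A : Finset ℕ) (hA : ∀ a ∈ A, 1 ≤ a) : (A.card : ℝ) - g ≤ (lft g A).card := by
  unfold lft
  rw [card_image_of_injOn]
  · have h1 : A.card = (A.filter (fun a => g < a)).card + (A.filter (fun a => ¬ g < a)).card :=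
      (card_filter_add_card_filter_not _).symm
    have h2 : (A.filter (fun a => ¬ g < a)).card ≤ g := by
      calc (A.filter (fun a => ¬ g < a)).card ≤ (Icc 1 g).card := by
            apply card_le_card
            intro a ha
            rw [mem_filter] at ha
            rw [mem_Icc]
            have := hA a ha.1
            omega
        _ = g := by rw [Nat.card_Icc]; omega
    have h3 : (A.card : ℝ) = ((A.filter (fun a => g < a)).card : ℝ) +
        ((A.filter (fun a => ¬ g < a)).card : ℝ) := by exact_mod_cast h1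
    have h4 : ((A.filter (fun a => ¬ g < a)).card : ℝ) ≤ g := by exact_mod_cast h2
    linarith
  · intro a ha b hb hab
    rw [mem_coe, mem_filter] at ha hb
    have : a - g = b - g := hab
    omega

theorem thin_core (c ε : ℝ) (hc : 0 < c) (hε : 0 < ε) (hε1 : ε < 1) (k q : ℕ) (hq : 1 ≤ q) :
    ∃ D N₁ : ℕ, ∀ N : ℕ, N₁ ≤ N → ∀ A : Finset ℕ, A ⊆ Icc 1 N →
      2 * (N : ℝ) ^ (ε / 2) ≤ A.card → ∀ b : ℕ, (N : ℝ) ^ (1 / 2 : ℝ) ≤ b → b ≤ N →
      Good c (ε / 4) N (lft ⌊(N : ℝ) ^ (ε / 2)⌋₊ A) b →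
      Herds (c / 2) ε k q (Real.log N ^ D) A b := by
  classical
  obtain ⟨D, N₀, hcol⟩ := colour k q (ε / 4) c hq (by positivity) hc
  have e1 : ∀ᶠ N : ℕ in atTop, (3 : ℝ) ≤ (N : ℝ) ^ (ε / 4) :=
    ((tendsto_rpow_atTop (by positivity)).comp tendsto_natCast_atTop_atTop).eventually_ge_atTop 3
  obtain ⟨N₂, hN₂⟩ := (e1.and (eventually_ge_atTop 4)).exists_forall_of_atTop
  refine ⟨D, max N₀ N₂, fun N hN A hA hAg b hb1 hb2 hG => ?_⟩
  obtain ⟨h3, hN4⟩ := hN₂ N ((le_max_right _ _).trans hN)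
  have hNN₀ : N₀ ≤ N := (le_max_left _ _).trans hN
  have hNr : (4 : ℝ) ≤ N := by exact_mod_cast hN4
  have hN0 : (0 : ℝ) < N := by linarith
  obtain ⟨g, hg⟩ : ∃ g : ℕ, g = ⌊(N : ℝ) ^ (ε / 2)⌋₊ := ⟨_, rfl⟩
  rw [← hg] at hG
  have hg1 : (g : ℝ) ≤ (N : ℝ) ^ (ε / 2) := by rw [hg]; exact Nat.floor_le (by positivity)
  have hg2 : (N : ℝ) ^ (ε / 2) < g + 1 := by rw [hg]; exact Nat.lt_floor_add_one _
  have hsq : (N : ℝ) ^ (ε / 2) = (N : ℝ) ^ (ε / 4) * (N : ℝ) ^ (ε / 4) := by
    rw [← Real.rpow_add hN0]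
    congr 1
    ring
  have hg3 : (N : ℝ) ^ (ε / 4) + 2 ≤ g + 1 := by
    have : (N : ℝ) ^ (ε / 4) + 2 ≤ (N : ℝ) ^ (ε / 4) * (N : ℝ) ^ (ε / 4) := by nlinarith
    linarith
  have hg4 : 4 ≤ g := by
    have : (4 : ℝ) ≤ g := by linarith
    exact_mod_cast this
  have hy1 : (N : ℝ) ^ (ε / 4) ≤ ((g - 1 : ℕ) : ℝ) := by
    rw [Nat.cast_sub (by omega), Nat.cast_one]
    linarith
  have hgN : (g : ℝ) ≤ N := by
    calc (g : ℝ) ≤ (N : ℝ) ^ (ε / 2) := hg1
      _ ≤ (N : ℝ) ^ (1 : ℝ) := Real.rpow_le_rpow_of_exponent_le (by linarith) (by linarith)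
      _ = N := Real.rpow_one _
  have hgN' : g ≤ N := by exact_mod_cast hgN
  obtain ⟨-, -, hG3⟩ := hG.1 (g - 1) hy1 (by omega)
  have hA1 : ∀ a ∈ A, 1 ≤ a := fun a ha => (mem_Icc.1 (hA ha)).1
  have hcard : (A.card : ℝ) / 2 ≤ (lft g A).card := by
    have := lft_card g A hA1
    linarith
  unfold Herds
  calc c / 2 * A.card = c * (A.card / 2) := by ring
    _ ≤ c * (lft g A).card := mul_le_mul_of_nonneg_left hcard hc.le
    _ ≤ _ := hG3
    _ ≤ _ := ?_
  apply Nat.cast_le.2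
  apply card_le_card_of_injOn (fun a => a + g)
  · intro a ha
    rw [mem_coe, mem_filter] at ha
    obtain ⟨ha1, ha2⟩ := ha
    unfold lft at ha1
    rw [mem_image] at ha1
    obtain ⟨a', ha', rfl⟩ := ha1
    rw [mem_filter] at ha'
    have e2 : a' - g + g = a' := by omega
    rw [mem_coe]
    show a' - g + g ∈ _
    rw [e2, mem_filter]
    refine ⟨ha'.1, fun χ => ?_⟩
    have ha'N := (mem_Icc.1 (hA ha'.1)).2
    have hsum : a' - g + b + (g - 1) = a' + b - 1 := by omega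
    have hbN : (b : ℝ) ≤ N := by exact_mod_cast hb2
    obtain ⟨a₀, d, hd1, hd2, hd3⟩ := hcol N (a' - g + b) (g - 1) hNN₀ hy1 (by omega) (by
        rw [hsum]
        calc a' + b - 1 ≤ 2 * N := by omega
          _ ≤ N * N := Nat.mul_le_mul_right N (by omega)
          _ = N ^ 2 := (sq N).symm) (by
        have : (b : ℝ) ≤ ((a' - g + b : ℕ) : ℝ) := by exact_mod_cast Nat.le_add_left _ _
        linarith)
      ((Ioc (a' - g + b) (a' - g + b + (g - 1))).filter Nat.Prime) (filter_subset _ _)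
      (fun n hn => (mem_filter.1 hn).2) (by
        have hlog : 0 < Real.log N := Real.log_pos (by linarith)
        rw [div_le_iff₀ hlog]
        exact ha2) χ
    refine ⟨χ a₀, a₀, d, hd1, hd2, fun i hi => ?_⟩
    obtain ⟨h5, h6⟩ := hd3 i hi
    rw [mem_filter, mem_Ioc, hsum] at h5
    obtain ⟨⟨h7, h8⟩, h9⟩ := h5
    refine ⟨h9, ?_, by omega, h6⟩
    have hx : (N : ℝ) ^ (ε / 2) ≤ ((a' + b : ℕ) : ℝ) ^ ε := by
      calc (N : ℝ) ^ (ε / 2) = ((N : ℝ) ^ (1 / 2 : ℝ)) ^ ε := by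
            rw [← Real.rpow_mul hN0.le]
            congr 1
            ring
        _ ≤ ((a' + b : ℕ) : ℝ) ^ ε := by
            apply Real.rpow_le_rpow (by positivity) _ hε.le
            refine hb1.trans ?_
            exact_mod_cast Nat.le_add_left _ _
    have h10 : ((a' + b : ℕ) : ℝ) < ((a₀ + i * d : ℕ) : ℝ) + g := by
      have : a' + b < a₀ + i * d + g := by omega
      exact_mod_cast this
    linarith
  · intro a _ a' _ h
    have : a + g = a' + g := h
    omega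

theorem energy_sub (p x : ℕ) (s : ℕ → ℤ) (g : ℤ) : energy p x (fun m => s m - g) = energy p x s := by
  unfold energy
  congr 1
  apply filter_congr
  intro q _
  rw [sum_sub_distrib, sum_sub_distrib, sub_left_inj]

end Pool.Agent.Y751.SI
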